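import Pool.Agent.W516.KU.Defs

/-!
KU-UB: without a root of length two there is a real structure.
-/

set_option autoImplicit false

namespace Pool.Agent.W605.KU

open Module Pool.Agent.W516.K3 Pool.Agent.W516.KU

section basic

variable {T : Type} [AddCommGroup T] [Module ℝ T] {b : T →ₗ[ℝ] T →ₗ[ℝ] ℝ} {J : Module.End ℝ T}

lemma JJ (h : Herm b J) (u : T) : J (J u) = -u :=
  congrArg (fun A : Module.End ℝ T => A u) h.sq

lemma skJ (h : Herm b J) (u v : T) : b u (J v) = -b (J u) v := by
  have h1 := h.isom u (J v)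
  rw [JJ h, map_neg] at h1
  linarith

lemma bJ0 (h : Herm b J) (u : T) : b (J u) u = 0 := by
  have h1 := skJ h u u
  have h2 := h.symm u (J u)
  linarith

lemma xx_app (u v w : T) : xx b J u v w =
    b v w • u - b u w • v + (b (J v) w • J u - b (J u) w • J v) := rfl

lemma brk {a : Module.End ℝ T} (ha : ∀ u v, b (a u) v + b u (a v) = 0)
    (hJ : a * J = J * a) (u v : T) :
    a * xx b J u v - xx b J u v * a = xx b J (a u) v + xx b J u (a v) := by
  have hJ' : ∀ w, a (J w) = J (a w) := fun w => congrArg (fun A : Module.End ℝ T => A w) hJ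
  have ha' : ∀ u v, b u (a v) = -b (a u) v := fun u v => by linarith [ha u v]
  ext w
  change a (xx b J u v w) - xx b J u v (a w) = xx b J (a u) v w + xx b J u (a v) w
  simp only [xx_app, map_add, map_sub, map_smul, ha', hJ']
  module

lemma xx_lin (u v w : T) (x y : ℝ) :
    xx b J u (x • v + y • w) = x • xx b J u v + y • xx b J u w := by
  ext s
  change _ = x • xx b J u v s + y • xx b J u w s
  simp only [xx_app, map_add, map_smul, LinearMap.add_apply, LinearMap.smul_apply, smul_eq_mul]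
  module

lemma xx_lin' (u v w : T) (x y : ℝ) :
    xx b J (x • v + y • w) u = x • xx b J v u + y • xx b J w u := by
  ext s
  change _ = x • xx b J v u s + y • xx b J w u s
  simp only [xx_app, map_add, map_smul, LinearMap.add_apply, LinearMap.smul_apply, smul_eq_mul]
  module

lemma xx_J (h : Herm b J) (u v : T) : xx b J (J u) v = -xx b J u (J v) := by
  ext s
  change _ = -(xx b J u (J v) s)
  simp only [xx_app, JJ h, map_neg, LinearMap.neg_apply]
  module

lemma xx_self (u : T) : xx b J u u = 0 := by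
  ext s
  change xx b J u u s = 0
  simp only [xx_app]
  module

lemma xx_swap (u v : T) : xx b J u v = -xx b J v u := by
  ext s
  change _ = -(xx b J v u s)
  simp only [xx_app]
  module

lemma xx_zero (v : T) : xx b J 0 v = 0 := by
  ext s
  change xx b J 0 v s = 0
  simp only [xx_app, map_zero, LinearMap.zero_apply]
  module

/-- The map `t ↦ xx e t`. -/
noncomputable def XL (b : T →ₗ[ℝ] T →ₗ[ℝ] ℝ) (J : Module.End ℝ T) (e : T) : T →ₗ[ℝ] Module.End ℝ T where
  toFun t := xx b J e t
  map_add' v w := by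
    have := xx_lin (b := b) (J := J) e v w 1 1
    simpa using this
  map_smul' x v := by
    have := xx_lin (b := b) (J := J) e v 0 x 0
    simpa using this

/-- The root space. -/
noncomputable def DD (b : T →ₗ[ℝ] T →ₗ[ℝ] ℝ) (J : Module.End ℝ T) (g : Submodule ℝ (Module.End ℝ T))
    (e f : T) : Submodule ℝ T := T0 b J e f ⊓ g.comap (XL b J e)

/-- Facts on the hyperbolic plane. -/
structure HF (b : T →ₗ[ℝ] T →ₗ[ℝ] ℝ) (J : Module.End ℝ T) (e f : T) : Prop where
  ee : b e e = 0
  ff : b f f = 0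
  ef : b e f = 1
  fe : b f e = 1
  Jee : b (J e) e = 0
  Jff : b (J f) f = 0
  Jef : b (J e) f = 0
  Jfe : b (J f) e = 0

lemma hypF (h : Herm b J) {e f : T} (hy : HypJ b J e f) : HF b J e f where
  ee := hy.ee
  ff := hy.ff
  ef := hy.ef
  fe := by rw [h.symm]; exact hy.ef
  Jee := bJ0 h e
  Jff := bJ0 h f
  Jef := by have := skJ h e f; rw [hy.eJf] at this; linarith
  Jfe := by rw [h.symm]; exact hy.eJf

lemma hyp_swap (h : Herm b J) {e f : T} (hy : HypJ b J e f) : HypJ b J f e where
  ee := hy.ff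
  ff := hy.ee
  ef := by rw [h.symm]; exact hy.ef
  eJf := by rw [skJ h, (hypF h hy).Jfe, neg_zero]

/-- Facts on the complement of the hyperbolic plane. -/
structure TF (b : T →ₗ[ℝ] T →ₗ[ℝ] ℝ) (J : Module.End ℝ T) (e f t : T) : Prop where
  te : b t e = 0
  et : b e t = 0
  tf : b t f = 0
  ft : b f t = 0
  Jte : b (J t) e = 0
  Jet : b (J e) t = 0
  Jtf : b (J t) f = 0
  Jft : b (J f) t = 0

lemma mem_T0 {e f t : T} : t ∈ T0 b J e f ↔
    ((b e t = 0 ∧ b f t = 0) ∧ b (J e) t = 0) ∧ b (J f) t = 0 := Iff.rfl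

lemma T0F (h : Herm b J) {e f t : T} (ht : t ∈ T0 b J e f) : TF b J e f t := by
  obtain ⟨⟨⟨h1, h2⟩, h3⟩, h4⟩ := mem_T0.1 ht
  refine ⟨by rw [h.symm]; exact h1, h1, by rw [h.symm]; exact h2, h2, ?_, h3, ?_, h4⟩
  · rw [h.symm, skJ h, h3, neg_zero]
  · rw [h.symm, skJ h, h4, neg_zero]

lemma T0_swap (e f : T) : T0 b J f e = T0 b J e f := by
  ext t
  rw [mem_T0, mem_T0]
  tauto

lemma T0_J (h : Herm b J) {e f t : T} (ht : t ∈ T0 b J e f) : J t ∈ T0 b J e f := by
  obtain ⟨⟨⟨h1, h2⟩, h3⟩, h4⟩ := mem_T0.1 ht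
  refine mem_T0.2 ⟨⟨⟨?_, ?_⟩, ?_⟩, ?_⟩
  · rw [skJ h, h3, neg_zero]
  · rw [skJ h, h4, neg_zero]
  · rw [h.isom, h1]
  · rw [h.isom, h2]

lemma X_e {e f t : T} (hF : HF b J e f) (tF : TF b J e f t) : xx b J e t e = 0 := by
  rw [xx_app, tF.te, hF.ee, tF.Jte, hF.Jee]
  module

lemma X_f {e f t : T} (hF : HF b J e f) (tF : TF b J e f t) : xx b J e t f = -t := by
  rw [xx_app, tF.tf, hF.ef, tF.Jtf, hF.Jef]
  module

lemma X_t {e f t w : T} (wF : TF b J e f w) :
    xx b J e t w = b t w • e + b (J t) w • J e := by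
  rw [xx_app, wF.et, wF.Jet]
  module

/-- The complement is anisotropic. -/
lemma aniso (h : Herm b J)
    (witt : ∀ W : Submodule ℝ T, (∀ u ∈ W, ∀ v ∈ W, b u v = 0) → finrank ℝ W ≤ 2)
    {e f t : T} (hy : HypJ b J e f) (ht : t ∈ T0 b J e f) (h0 : b t t = 0) : t = 0 := by
  by_contra hne
  have hF := hypF h hy
  have tF := T0F h ht
  have hli : LinearIndependent ℝ ![e, J e, t] := by
    rw [Fintype.linearIndependent_iff]
    intro c hc
    have hc' : c 0 • e + c 1 • J e + c 2 • t = 0 := by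
      rw [Fin.sum_univ_three] at hc
      exact hc
    have h1 := congrArg (fun v => b f v) hc'
    have h2 := congrArg (fun v => b (J f) v) hc'
    simp only [map_add, map_smul, smul_eq_mul, map_zero, hF.fe, tF.ft, h.isom, skJ h f e, hF.Jfe,
      tF.Jft, neg_zero, mul_zero, mul_one, add_zero, zero_add] at h1 h2
    have h3 : c 2 • t = 0 := by
      rw [h1, h2, zero_smul, zero_smul, zero_add, zero_add] at hc'
      exact hc'
    have h4 : c 2 = 0 := (smul_eq_zero.1 h3).resolve_right hne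
    intro i
    fin_cases i
    · exact h1
    · exact h2
    · exact h4
  have h3 := finrank_span_eq_card hli
  rw [Fintype.card_fin] at h3
  have hr : Set.range ![e, J e, t] = {e, J e, t} := by
    ext v
    simp only [Set.mem_range, Set.mem_insert_iff, Set.mem_singleton_iff]
    constructor
    · rintro ⟨i, rfl⟩
      fin_cases i
      · exact Or.inl rfl
      · exact Or.inr (Or.inl rfl)
      · exact Or.inr (Or.inr rfl)
    · rintro (rfl | rfl | rfl)
      · exact ⟨0, rfl⟩
      · exact ⟨1, rfl⟩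
      · exact ⟨2, rfl⟩
  have h4 := witt (Submodule.span ℝ (Set.range ![e, J e, t])) (by
    have hk : ∀ u ∈ ({e, J e, t} : Set T), ∀ v ∈ ({e, J e, t} : Set T), b u v = 0 := by
      rintro u (rfl | rfl | rfl) v (rfl | rfl | rfl)
      · exact hF.ee
      · rw [skJ h, hF.Jee, neg_zero]
      · exact tF.et
      · exact hF.Jee
      · rw [h.isom]; exact hF.ee
      · exact tF.Jet
      · exact tF.te
      · rw [skJ h, tF.Jte, neg_zero]
      · exact h0
    intro u hu v hv
    rw [hr] at hu hv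
    induction hu using Submodule.span_induction with
    | mem u hu =>
      induction hv using Submodule.span_induction with
      | mem v hv => exact hk u hu v hv
      | zero => exact map_zero _
      | add x y _ _ hx hy => rw [map_add, hx, hy, add_zero]
      | smul c x _ hx => rw [map_smul, hx, smul_zero]
    | zero => rw [map_zero]; rfl
    | add x y _ _ hx hy => rw [map_add, LinearMap.add_apply, hx, hy, add_zero]
    | smul c x _ hx => rw [map_smul, LinearMap.smul_apply, hx, smul_zero])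
  omega

variable {g : Submodule ℝ (Module.End ℝ T)}

/-- Root vectors of the same sign commute. -/
lemma D1 (hg : GoodJ b J g) {e f : T} (hy : HypJ b J e f) (hE : xx b J e (J e) ∉ g) {t t' : T}
    (ht : t ∈ DD b J g e f) (ht' : t' ∈ DD b J g e f) : b (J t) t' = 0 := by
  by_contra hne
  apply hE
  have h := hg.herm
  have hF := hypF h hy
  have hX : xx b J e t ∈ g := ht.2
  have hX' : xx b J e t' ∈ g := ht'.2
  have h1 := hg.bracket _ hX _ hX'
  rw [brk (hg.skew _ hX) (hg.commJ _ hX)] at h1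
  rw [X_e hF (T0F h ht.1), X_t (T0F h ht'.1), xx_zero, zero_add, xx_lin, xx_self, smul_zero,
    zero_add] at h1
  have h2 := g.smul_mem (b (J t) t')⁻¹ h1
  rwa [smul_smul, inv_mul_cancel₀ hne, one_smul] at h2

/-- Root vectors of different signs. -/
lemma D2 (hg : GoodJ b J g) {e f : T} (hy : HypJ b J e f) (hE : xx b J e (J e) ∉ g) {t s : T}
    (ht : t ∈ DD b J g e f) (ht0 : t ≠ 0) (hs : s ∈ DD b J g f e) :
    b (J t) s = 0 ∧ s ∈ DD b J g e f := by
  have h := hg.herm
  have hF := hypF h hy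
  have tF := T0F h ht.1
  have hs0 : s ∈ T0 b J e f := by rw [← T0_swap]; exact hs.1
  have sF := T0F h hs0
  have hJt := T0_J h ht.1
  have hJs := T0_J h hs0
  have hX := ht.2
  change xx b J e t ∈ g at hX
  have hY := hs.2
  change xx b J f s ∈ g at hY
  have hz := hg.bracket _ hX _ hY
  set z := xx b J e t * xx b J f s - xx b J f s * xx b J e t with hzdef
  have hz' : z = -xx b J t s + (b t s • xx b J f e + b (J t) s • xx b J f (J e)) := by
    rw [hzdef, brk (hg.skew _ hX) (hg.commJ _ hX), X_f hF tF, X_t sF, xx_lin]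
    congr 1
    have := xx_lin' (b := b) (J := J) s t 0 (-1) 0
    simpa using this
  have hze : z e = (-b t s) • e + (-b (J t) s) • J e := by
    have e1 : z e = -(xx b J t s e) + (b t s • xx b J f e e + b (J t) s • xx b J f (J e) e) := by
      rw [hz']; rfl
    rw [e1]
    simp only [xx_app, sF.te, tF.te, sF.Jte, tF.Jte, hF.ee, hF.fe, hF.Jee, hF.Jfe, JJ h, map_neg,
      LinearMap.neg_apply]
    module
  have hzt : z t = b t t • s + (-b t s) • t + b (J t) s • J t := by
    have e1 : z t = -(xx b J t s t) + (b t s • xx b J f e t + b (J t) s • xx b J f (J e) t) := by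
      rw [hz']; rfl
    have e2 : b (J s) t = -b (J t) s := by rw [h.symm (J s) t, skJ h]
    have e3 : b s t = b t s := h.symm _ _
    rw [e1]
    simp only [xx_app, tF.et, tF.ft, tF.Jet, tF.Jft, JJ h, map_neg, LinearMap.neg_apply, bJ0 h t,
      e2, e3]
    module
  have hw := hg.bracket _ hz _ hX
  rw [brk (hg.skew _ hz) (hg.commJ _ hz), hze, xx_lin', xx_J h] at hw
  have hw' : xx b J e (b t t • s + ((-2 * b t s) • t + (2 * b (J t) s) • J t)) ∈ g := by
    have e1 : xx b J e (b t t • s + ((-2 * b t s) • t + (2 * b (J t) s) • J t)) =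
        (-b t s) • xx b J e t + (-b (J t) s) • -xx b J e (J t) + xx b J e (z t) := by
      rw [hzt]
      have a1 := (XL b J e).map_add
      have a2 := (XL b J e).map_smul
      change (XL b J e) _ = (-b t s) • (XL b J e) t + (-b (J t) s) • -(XL b J e) (J t) +
        (XL b J e) _
      simp only [a1, a2]
      module
    rw [e1]
    exact hw
  have hwT : b t t • s + ((-2 * b t s) • t + (2 * b (J t) s) • J t) ∈ T0 b J e f :=
    Submodule.add_mem _ (Submodule.smul_mem _ _ hs0) (Submodule.add_mem _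
      (Submodule.smul_mem _ _ ht.1) (Submodule.smul_mem _ _ hJt))
  have hwD : b t t • s + ((-2 * b t s) • t + (2 * b (J t) s) • J t) ∈ DD b J g e f := ⟨hwT, hw'⟩
  have htt : b t t ≠ 0 := fun h0 => ht0 (aniso h hg.witt hy ht.1 h0)
  have h1 := D1 hg hy hE ht hwD
  simp only [map_add, map_smul, smul_eq_mul, bJ0 h t, h.isom] at h1
  have h2 : b (J t) s = 0 := by
    have : b t t * (3 * b (J t) s) = 0 := by linarith
    have := (mul_eq_zero.1 this).resolve_left htt
    linarith
  refine ⟨h2, ?_⟩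
  have h3 := Submodule.smul_mem _ (b t t)⁻¹ (Submodule.sub_mem _ hwD (Submodule.add_mem _
    (Submodule.smul_mem _ (-2 * b t s) ht) (Submodule.smul_mem _ (0 : ℝ) ht)))
  rw [h2] at h3
  have e1 : (b t t)⁻¹ • (b t t • s + ((-2 * b t s) • t + ((2 : ℝ) * 0) • J t) -
      ((-2 * b t s) • t + (0 : ℝ) • t)) = ((b t t)⁻¹ * b t t) • s := by
    module
  rw [e1, inv_mul_cancel₀ htt, one_smul] at h3
  exact h3

lemma eig (h : Herm b J) {e f w : T} (hy : HypJ b J e f) (hw : xx b J e f w = w) :
    w = b f w • e + b (J f) w • J e := by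
  have hF := hypF h hy
  have h1 := congrArg (fun v => b e v) hw
  have h2 := congrArg (fun v => b (J e) v) hw
  simp only [xx_app, map_add, map_sub, map_smul, smul_eq_mul, hF.ee, hF.ef, hF.Jee, hF.Jef,
    h.isom, skJ h e, neg_zero, mul_zero, mul_one, sub_zero, zero_sub, add_zero, zero_add] at h1 h2
  have h3 : b e w = 0 := by linarith
  have h4 : b (J e) w = 0 := by linarith
  rw [xx_app, h3, h4] at hw
  conv_lhs => rw [← hw]
  module

lemma zfacts (hg : GoodJ b J g) {e f : T} (hy : HypJ b J e f) {z : Module.End ℝ T} (hz : z ∈ g)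
    (hc : z * xx b J e f = xx b J e f * z) :
    ∃ a c : ℝ, z e = a • e + c • J e ∧ z f = (-a) • f + c • J f := by
  have h := hg.herm
  have hF := hypF h hy
  have hF' := hypF h (hyp_swap h hy)
  have hzJ : ∀ w, z (J w) = J (z w) := fun w =>
    congrArg (fun A : Module.End ℝ T => A w) (hg.commJ z hz)
  have hc' : ∀ w, z (xx b J e f w) = xx b J e f (z w) := fun w =>
    congrArg (fun A : Module.End ℝ T => A w) hc
  have he : xx b J e f e = e := by
    rw [xx_app, hF.fe, hF.ee, hF.Jfe, hF.Jee]; module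
  have hf : xx b J e f f = -f := by
    rw [xx_app, hF.ff, hF.ef, hF.Jff, hF.Jef]; module
  have h1 := hc' e
  rw [he] at h1
  have h2 := eig h hy h1.symm
  have h3 := hc' f
  rw [hf, map_neg] at h3
  have h4 : xx b J f e (z f) = z f := by
    rw [xx_swap]
    change -(xx b J e f (z f)) = z f
    rw [← h3, neg_neg]
  have h5 := eig h (hyp_swap h hy) h4
  refine ⟨b f (z e), b (J f) (z e), h2, ?_⟩
  have e1 : b e (z f) = -b f (z e) := by
    have := hg.skew z hz e f
    rw [h.symm (z e) f] at this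
    linarith
  have e2 : b (J e) (z f) = b (J f) (z e) := by
    have := hg.skew z hz (J e) f
    rw [hzJ, h.symm (J (z e)) f, skJ h] at this
    linarith
  rw [e1, e2] at h5
  exact h5

lemma zX (hg : GoodJ b J g) {e f : T} {z : Module.End ℝ T} (hz : z ∈ g) {a c : ℝ}
    (hze : z e = a • e + c • J e) (hzf : z f = (-a) • f + c • J f) {t : T}
    (ht : t ∈ DD b J g e f) : z t + a • t - c • J t ∈ DD b J g e f := by
  have h := hg.herm
  have tF := T0F h ht.1
  have hzJ : ∀ w, z (J w) = J (z w) := fun w =>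
    congrArg (fun A : Module.End ℝ T => A w) (hg.commJ z hz)
  have hsk : ∀ u v, b u (z v) = -b (z u) v := fun u v => by linarith [hg.skew z hz u v]
  have hzt : z t ∈ T0 b J e f := by
    refine mem_T0.2 ⟨⟨⟨?_, ?_⟩, ?_⟩, ?_⟩
    · rw [hsk, hze]
      simp only [map_add, map_smul, LinearMap.add_apply, LinearMap.smul_apply, tF.et, tF.Jet,
        smul_zero, add_zero, neg_zero]
    · rw [hsk, hzf]
      simp only [map_add, map_smul, LinearMap.add_apply, LinearMap.smul_apply, tF.ft, tF.Jft,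
        smul_zero, add_zero, neg_zero]
    · rw [hsk, hzJ, hze]
      simp only [map_add, map_smul, LinearMap.add_apply, LinearMap.smul_apply, JJ h, map_neg,
        LinearMap.neg_apply, tF.et, tF.Jet, smul_zero, add_zero, neg_zero]
    · rw [hsk, hzJ, hzf]
      simp only [map_add, map_smul, LinearMap.add_apply, LinearMap.smul_apply, JJ h, map_neg,
        LinearMap.neg_apply, tF.ft, tF.Jft, smul_zero, add_zero, neg_zero]
  refine ⟨Submodule.sub_mem _ (Submodule.add_mem _ hzt (Submodule.smul_mem _ _ ht.1))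
    (Submodule.smul_mem _ _ (T0_J h ht.1)), ?_⟩
  have h1 := hg.bracket _ hz _ ht.2
  change z * xx b J e t - xx b J e t * z ∈ g at h1
  rw [brk (hg.skew _ hz) (hg.commJ _ hz), hze, xx_lin', xx_J h] at h1
  have e1 : XL b J e (z t + a • t - c • J t) =
      a • xx b J e t + c • -xx b J e (J t) + xx b J e (z t) := by
    rw [map_sub, map_add, map_smul, map_smul]
    change xx b J e (z t) + a • xx b J e t - c • xx b J e (J t) = _
    module
  change XL b J e (z t + a • t - c • J t) ∈ g
  rw [e1]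
  exact h1

lemma dec (hGR : S_GR) [FiniteDimensional ℝ T] (hg : GoodJ b J g) {e f : T} (hy : HypJ b J e f)
    (hh : xx b J e f ∈ g) (hE : xx b J e (J e) ∉ g) (hF : xx b J f (J f) ∉ g)
    {x : Module.End ℝ T} (hx : x ∈ g) :
    ∃ t ∈ DD b J g e f, ∃ s ∈ DD b J g f e, ∃ z ∈ g, z * xx b J e f = xx b J e f * z ∧
      x = xx b J e t + z + xx b J f s := by
  obtain ⟨t, s, α, β, z, ht, hs, hXt, hYs, hα, hβ, hz, hc, hxe⟩ := hGR T b J g hg e f hy hh x hx
  have hα0 : α = 0 := by
    by_contra hne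
    apply hE
    have := g.smul_mem α⁻¹ hα
    rwa [smul_smul, inv_mul_cancel₀ hne, one_smul] at this
  have hβ0 : β = 0 := by
    by_contra hne
    apply hF
    have := g.smul_mem β⁻¹ hβ
    rwa [smul_smul, inv_mul_cancel₀ hne, one_smul] at this
  refine ⟨t, ⟨ht, hXt⟩, s, ⟨by rw [T0_swap]; exact hs, hYs⟩, z, hz, hc, ?_⟩
  rw [hxe, hα0, hβ0, zero_smul, zero_smul, zero_add, add_zero]

lemma hc_swap {e f : T} {z : Module.End ℝ T} (hc : z * xx b J e f = xx b J e f * z) :
    z * xx b J f e = xx b J f e * z := by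
  rw [xx_swap f e, mul_neg, neg_mul, hc]

/-- The action of the elements of degree zero. -/
lemma stabU (hg : GoodJ b J g) {e f : T} (hy : HypJ b J e f) {U : Submodule ℝ T}
    (hJ : ∀ u ∈ U, J u ∈ U) (he : e ∈ U) (hD : DD b J g e f ≤ U) {z : Module.End ℝ T}
    (hz : z ∈ g) (hc : z * xx b J e f = xx b J e f * z) :
    z e ∈ U ∧ ∀ d ∈ DD b J g e f, z d ∈ U := by
  obtain ⟨a, c, h1, h2⟩ := zfacts hg hy hz hc
  constructor
  · rw [h1]
    exact Submodule.add_mem _ (Submodule.smul_mem _ _ he) (Submodule.smul_mem _ _ (hJ _ he))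
  · intro d hd
    have h3 := hD (zX hg hz h1 h2 hd)
    have h4 : z d = (z d + a • d - c • J d) + ((-a) • d + c • J d) := by module
    rw [h4]
    exact Submodule.add_mem _ h3 (Submodule.add_mem _ (Submodule.smul_mem _ _ (hD hd))
      (Submodule.smul_mem _ _ (hJ _ (hD hd))))

lemma U_J (h : Herm b J) (V : Submodule ℝ T) : ∀ u ∈ V ⊔ V.map J, J u ∈ V ⊔ V.map J := by
  intro u hu
  obtain ⟨v, hv, _, ⟨w, hw, rfl⟩, rfl⟩ := Submodule.mem_sup.1 hu
  rw [map_add, JJ h]
  exact Submodule.add_mem _ (Submodule.mem_sup_right ⟨v, hv, rfl⟩)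
    (Submodule.mem_sup_left (Submodule.neg_mem _ hw))

lemma stab (h : Herm b J) (V : Submodule ℝ T) {x : Module.End ℝ T} (hxJ : x * J = J * x)
    (hx : ∀ v ∈ V, x v ∈ V ⊔ V.map J) : ∀ u ∈ V ⊔ V.map J, x u ∈ V ⊔ V.map J := by
  intro u hu
  obtain ⟨v, hv, _, ⟨w, hw, rfl⟩, rfl⟩ := Submodule.mem_sup.1 hu
  have h1 : x (J w) = J (x w) := congrArg (fun A : Module.End ℝ T => A w) hxJ
  rw [map_add, h1]
  exact Submodule.add_mem _ (hx v hv) (U_J h V _ (hx w hw))

/-- There are root vectors. -/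
lemma DD_ne (hGR : S_GR) [FiniteDimensional ℝ T] (hg : GoodJ b J g) {e f : T}
    (hy : HypJ b J e f) (hh : xx b J e f ∈ g) (hE : xx b J e (J e) ∉ g)
    (hF : xx b J f (J f) ∉ g) : ∃ t ∈ DD b J g e f, t ≠ 0 := by
  by_contra hcon
  push Not at hcon
  have h := hg.herm
  have hy' := hyp_swap h hy
  have F := hypF h hy
  set V : Submodule ℝ T := Submodule.span ℝ {f} ⊔ DD b J g f e with hV
  have hf : f ∈ V := Submodule.mem_sup_left (Submodule.mem_span_singleton_self f)
  have hDV : DD b J g f e ≤ V := le_sup_right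
  have hVU : V ≤ V ⊔ V.map J := le_sup_left
  have hUJ := U_J h V
  have hstab : ∀ x ∈ g, ∀ u ∈ V ⊔ V.map J, x u ∈ V ⊔ V.map J := by
    intro x hx
    refine stab h V (hg.commJ x hx) ?_
    obtain ⟨t, ht, s, hs, z, hz, hc, rfl⟩ := dec hGR hg hy hh hE hF hx
    obtain rfl := hcon t ht
    have e0 : xx b J e 0 = 0 := (XL b J e).map_zero
    obtain ⟨h1, h2⟩ := stabU hg hy' hUJ (hVU hf) (hDV.trans hVU) hz (hc_swap hc)
    intro v hv
    obtain ⟨w, hw, d, hd, rfl⟩ := Submodule.mem_sup.1 hv
    obtain ⟨c, rfl⟩ := Submodule.mem_span_singleton.1 hw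
    have e1 : (xx b J e 0 + z + xx b J f s) (c • f + d) =
        c • (z f + xx b J f s f) + (z d + xx b J f s d) := by
      rw [e0]
      simp only [zero_add, LinearMap.add_apply, map_add, map_smul, smul_add]
    rw [e1, X_e (hypF h hy') (T0F h hs.1), X_t (T0F h hd.1), add_zero]
    exact Submodule.add_mem _ (Submodule.smul_mem _ _ h1) (Submodule.add_mem _ (h2 d hd)
      (Submodule.add_mem _ (Submodule.smul_mem _ _ (hVU hf))
        (Submodule.smul_mem _ _ (hUJ _ (hVU hf)))))
  have hort : ∀ v ∈ V, b f v = 0 ∧ b f (J v) = 0 := by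
    intro v hv
    obtain ⟨w, hw, d, hd, rfl⟩ := Submodule.mem_sup.1 hv
    obtain ⟨c, rfl⟩ := Submodule.mem_span_singleton.1 hw
    have dF := T0F h hd.1
    constructor
    · rw [map_add, map_smul, F.ff, dF.et, smul_zero, add_zero]
    · rw [skJ h, map_add, map_smul, F.Jff, dF.Jet, smul_zero, add_zero, neg_zero]
  rcases hg.irr _ hstab with h1 | h1
  · have h2 : f ∈ (⊥ : Submodule ℝ T) := h1 ▸ hVU hf
    have h3 : f = 0 := h2
    have h4 := F.ef
    rw [h3, map_zero] at h4
    exact zero_ne_one h4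
  · have h2 : e ∈ V ⊔ V.map J := by rw [h1]; trivial
    obtain ⟨v, hv, _, ⟨w, hw, rfl⟩, h3⟩ := Submodule.mem_sup.1 h2
    have h4 := F.fe
    rw [← h3, map_add, (hort v hv).1, (hort w hw).2, add_zero] at h4
    exact zero_ne_one h4

/-- The part UB. -/
theorem T_UB : S_GR → S_UB := by
  intro hGR T _ _ _ b J g hg _ e f hy hh hE hF
  have h := hg.herm
  have hy' := hyp_swap h hy
  have F := hypF h hy
  have F' := hypF h hy'
  have hh' : xx b J f e ∈ g := by rw [xx_swap]; exact g.neg_mem hh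
  obtain ⟨t₀, ht₀, ht₀0⟩ := DD_ne hGR hg hy hh hE hF
  obtain ⟨s₀, hs₀, hs₀0⟩ := DD_ne hGR hg hy' hh' hF hE
  have hDD : DD b J g f e = DD b J g e f := le_antisymm
    (fun s hs => (D2 hg hy hE ht₀ ht₀0 hs).2) (fun t ht => (D2 hg hy' hF hs₀ hs₀0 ht).2)
  set V : Submodule ℝ T := Submodule.span ℝ {e, f} ⊔ DD b J g e f with hV
  have he : e ∈ V := Submodule.mem_sup_left (Submodule.subset_span (Or.inl rfl))
  have hf : f ∈ V := Submodule.mem_sup_left (Submodule.subset_span (Or.inr rfl))
  have hDV : DD b J g e f ≤ V := le_sup_right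
  have hVU : V ≤ V ⊔ V.map J := le_sup_left
  have hUJ := U_J h V
  have key : ∀ v ∈ V, ∃ a c : ℝ, ∃ d ∈ DD b J g e f, v = a • e + c • f + d := by
    intro v hv
    obtain ⟨w, hw, d, hd, rfl⟩ := Submodule.mem_sup.1 hv
    obtain ⟨a, c, rfl⟩ := Submodule.mem_span_pair.1 hw
    exact ⟨a, c, d, hd, rfl⟩
  have hort : ∀ u ∈ V, ∀ v ∈ V, b u (J v) = 0 := by
    intro u hu v hv
    obtain ⟨a, c, d, hd, rfl⟩ := key u hu
    obtain ⟨a', c', d', hd', rfl⟩ := key v hv
    have dF := T0F h hd.1
    have dF' := T0F h hd'.1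
    have h1 := D1 hg hy hE hd hd'
    rw [skJ h]
    simp only [map_add, map_smul, LinearMap.add_apply, LinearMap.smul_apply, F.Jee, F.Jef, F.Jfe,
      F.Jff, dF'.Jet, dF'.Jft, dF.Jte, dF.Jtf, h1, smul_zero, add_zero, neg_zero]
  -- the whole space
  have hstab : ∀ x ∈ g, ∀ u ∈ V ⊔ V.map J, x u ∈ V ⊔ V.map J := by
    intro x hx
    refine stab h V (hg.commJ x hx) ?_
    obtain ⟨t, ht, s, hs, z, hz, hc, rfl⟩ := dec hGR hg hy hh hE hF hx
    rw [hDD] at hs
    obtain ⟨h1, h2⟩ := stabU hg hy hUJ (hVU he) (hDV.trans hVU) hz hc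
    have h3 := (stabU hg hy' hUJ (hVU hf) (by rw [hDD]; exact hDV.trans hVU) hz
      (hc_swap hc)).1
    have tF := T0F h ht.1
    have sF := T0F h hs.1
    have sF' : TF b J f e s := T0F h (by rw [T0_swap]; exact hs.1)
    intro v hv
    obtain ⟨a, c, d, hd, rfl⟩ := key v hv
    have dF := T0F h hd.1
    have dF' : TF b J f e d := T0F h (by rw [T0_swap]; exact hd.1)
    have e1 : (xx b J e t + z + xx b J f s) (a • e + c • f + d) =
        a • (xx b J e t e + z e + xx b J f s e) + c • (xx b J e t f + z f + xx b J f s f) +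
          (xx b J e t d + z d + xx b J f s d) := by
      simp only [LinearMap.add_apply, map_add, map_smul, smul_add]
    rw [e1, X_e F tF, X_f F tF, X_t dF, X_e F' sF', X_f F' sF', X_t dF']
    have hU := hVU he
    have hU' := hVU hf
    have hJe := hUJ _ hU
    have hJf := hUJ _ hU'
    have hs' := hVU (hDV hs)
    have ht' := hVU (hDV ht)
    exact Submodule.add_mem _ (Submodule.add_mem _
      (Submodule.smul_mem _ _ (Submodule.add_mem _ (Submodule.add_mem _ (Submodule.zero_mem _) h1)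
        (Submodule.neg_mem _ hs')))
      (Submodule.smul_mem _ _ (Submodule.add_mem _ (Submodule.add_mem _
        (Submodule.neg_mem _ ht') h3) (Submodule.zero_mem _))))
      (Submodule.add_mem _ (Submodule.add_mem _
        (Submodule.add_mem _ (Submodule.smul_mem _ _ hU) (Submodule.smul_mem _ _ hJe)) (h2 d hd))
        (Submodule.add_mem _ (Submodule.smul_mem _ _ hU') (Submodule.smul_mem _ _ hJf)))
  have htop : V ⊔ V.map J = ⊤ := by
    rcases hg.irr _ hstab with h1 | h1
    · exfalso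
      have h2 : f ∈ (⊥ : Submodule ℝ T) := h1 ▸ hVU hf
      have h3 : f = 0 := h2
      have h4 := F.ef
      rw [h3, map_zero] at h4
      exact zero_ne_one h4
    · exact h1
  refine ⟨V, ⟨?_, codisjoint_iff.2 htop⟩, hort, ?_⟩
  · rw [Submodule.disjoint_def]
    rintro _ hx ⟨x, hx', rfl⟩
    apply hg.herm.nondeg
    intro v
    have hv : v ∈ V ⊔ V.map J := by rw [htop]; trivial
    obtain ⟨v₁, hv₁, _, ⟨v₂, hv₂, rfl⟩, rfl⟩ := Submodule.mem_sup.1 hv
    have h1 := hort x hx' v₁ hv₁
    rw [skJ h, neg_eq_zero] at h1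
    rw [map_add, h1, hort _ hx v₂ hv₂, add_zero]
  · intro x hx
    obtain ⟨t, ht, s, hs, z, hz, hc, rfl⟩ := dec hGR hg hy hh hE hF hx
    rw [hDD] at hs
    obtain ⟨a, c, h1, h2⟩ := zfacts hg hy hz hc
    refine ⟨c, ?_⟩
    have tF := T0F h ht.1
    have sF := T0F h hs.1
    have sF' : TF b J f e s := T0F h (by rw [T0_swap]; exact hs.1)
    intro v hv
    obtain ⟨a', c', d, hd, rfl⟩ := key v hv
    have dF := T0F h hd.1
    have dF' : TF b J f e d := T0F h (by rw [T0_swap]; exact hd.1)
    have h3 := zX hg hz h1 h2 hd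
    have e1 : (xx b J e t + z + xx b J f s - c • J) (a' • e + c' • f + d) =
        a' • (xx b J e t e + (z e - c • J e) + xx b J f s e) +
          c' • (xx b J e t f + (z f - c • J f) + xx b J f s f) +
          (xx b J e t d + (z d + a • d - c • J d) - a • d + xx b J f s d) := by
      simp only [LinearMap.add_apply, LinearMap.sub_apply, LinearMap.smul_apply, map_add, map_smul]
      module
    have e2 : z e - c • J e = a • e := by rw [h1]; module
    have e3 : z f - c • J f = (-a) • f := by rw [h2]; module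
    rw [e1, X_e F tF, X_f F tF, X_t dF, X_e F' sF', X_f F' sF', X_t dF', e2, e3,
      D1 hg hy hE ht hd, D1 hg hy hE hs hd, zero_smul, zero_smul]
    exact Submodule.add_mem _ (Submodule.add_mem _
      (Submodule.smul_mem _ _ (Submodule.add_mem _ (Submodule.add_mem _ (Submodule.zero_mem _)
        (Submodule.smul_mem _ _ he)) (Submodule.neg_mem _ (hDV hs))))
      (Submodule.smul_mem _ _ (Submodule.add_mem _ (Submodule.add_mem _
        (Submodule.neg_mem _ (hDV ht)) (Submodule.smul_mem _ _ hf)) (Submodule.zero_mem _))))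
      (Submodule.add_mem _ (Submodule.sub_mem _ (Submodule.add_mem _
        (Submodule.add_mem _ (Submodule.smul_mem _ _ he) (Submodule.zero_mem _)) (hDV h3))
        (Submodule.smul_mem _ _ (hDV hd)))
        (Submodule.add_mem _ (Submodule.smul_mem _ _ hf) (Submodule.zero_mem _)))

end basic

end Pool.Agent.W605.KU
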